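import Pool.Agent.V11316.B125

set_option autoImplicit false

/-!
# `S_n(q) ≡ 0 (mod Φ_n(q)²)` for `n ≡ 1 (mod 4)`, `n > 1`

For `n = 1` the sum is `1` and the congruence fails trivially; it holds for all other `n`.
-/

namespace Pool.Agent.Results.MP_b125a4_nt.PhiSquare

open Polynomial Finset

noncomputable section

/-- the indeterminate `q` -/
def q : RatFunc ℚ := RatFunc.X

/-- the `q`-integer `[m] = (1 - q^m)/(1 - q)` -/
def qint (m : ℕ) : RatFunc ℚ := (1 - q ^ m) / (1 - q)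

/-- the `q`-shifted factorial `(a;p)_k = ∏_{i<k} (1 - a p^i)` -/
def poch (a p : RatFunc ℚ) (k : ℕ) : RatFunc ℚ := ∏ i ∈ range k, (1 - a * p ^ i)

/-- the exponent `e_n(k) = k (n² - 2nk - n - 2) / 4` (the division is exact for `n ≡ 1 (mod 4)`) -/
def e (n k : ℕ) : ℤ := (k * ((n : ℤ) ^ 2 - 2 * n * k - n - 2)) / 4

/-- `S_n(q) = ∑_{0 ≤ k ≤ (n-1)/2} [4k+1] ((q;q²)_k/(q²;q²)_k)³ q^{e_n(k)}` -/
def S (n : ℕ) : RatFunc ℚ :=
  ∑ k ∈ range ((n - 1) / 2 + 1), qint (4 * k + 1) *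
    (poch q (q ^ 2) k / poch (q ^ 2) (q ^ 2) k) ^ 3 * q ^ (e n k)

/-- an integer polynomial in `q`, seen in `ℚ(q)` -/
def toRat (f : ℤ[X]) : RatFunc ℚ :=
  algebraMap ℚ[X] (RatFunc ℚ) (f.map (Int.castRingHom ℚ))

/-- `x ≡ 0 (mod Φ_n(q)^s)`: `x = U/V` with `U, V ∈ ℤ[q]`, `V` not divisible by (equivalently, as
`Φ_n` is irreducible, coprime to) `Φ_n(q)`, and `Φ_n(q)^s ∣ U` in `ℤ[q]`. -/
def CongZero (n s : ℕ) (x : RatFunc ℚ) : Prop :=
  ∃ U V : ℤ[X], ¬ cyclotomic n ℤ ∣ V ∧ cyclotomic n ℤ ^ s ∣ U ∧ x * toRat V = toRat U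

/-- For `n ≡ 1 (mod 4)` the congruence `S_n(q) ≡ 0 (mod Φ_n(q)²)` holds exactly when `n > 1`. -/
theorem result (n : ℕ) (h : n ≡ 1 [MOD 4]) : CongZero n 2 (S n) ↔ 1 < n := by
  have h4 : n % 4 = 1 := h
  constructor
  · intro hc
    by_contra h1
    have hn : n = 1 := by omega
    subst hn
    obtain ⟨U, V, hV, hU, hUV⟩ := hc
    have hS : S 1 = 1 := by
      have hq : (1 : RatFunc ℚ) - q ≠ 0 := by
        have h3 := V11307.Q.one_sub_ne (k := 1) one_pos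
        rw [pow_one] at h3
        exact h3
      simp [S, poch, e, qint]
      exact hq
    rw [hS, one_mul] at hUV
    have h2 : V = U := by
      apply Polynomial.map_injective (Int.castRingHom ℚ) Int.cast_injective
      exact RatFunc.algebraMap_injective ℚ hUV
    exact hV (h2 ▸ (dvd_pow_self _ two_ne_zero).trans hU)
  · intro h1
    obtain ⟨M, rfl⟩ : ∃ M, n = 4 * M + 1 := ⟨n / 4, by omega⟩
    have h2 := V11316.SB_cong (M := M) (by omega)
    obtain ⟨A, B, hB, hA, h⟩ := V11316.I.int (by omega : 0 < 4 * M + 1) h2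
    exact ⟨A, B, hB, hA, h⟩

end

end Pool.Agent.Results.MP_b125a4_nt.PhiSquare
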